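import Pool.Agent.Q223.ID.Red

/-!
# The strong monodromy conjecture for ideals: reduction to linear forms and binomials

Let `o` be the parent map of a forest on the nodes `0, …, κ - 1` (parents come before their children,
`o m = none` for a root), with labels `v m ∈ {1, …, n}`. Consider the ideals of
`ℂ[x_1, …, x_n, z_1, …, z_κ]` generated by

`z_m - z_(o m) x_(v m)`, `m < κ` (where `z_none = 1`), and `a_j + ∑_m c_(j, m) z_m`, `j < r`.

The conjecture Q1 (every pole of the topological zeta function `Z_I` is a root of the Bernstein-Sato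
polynomial `b_I`) for all nonzero proper ideals `I` of polynomial rings is equivalent to its case of
these ideals, and even of those with log canonical threshold larger than any given `N`. If the
coefficients of the generators of `I` are in the additive group generated by a set `S` (which contains
`1`), the `c_(j, m)` can be taken from `S ∪ -S ∪ {0}`, and `a_j = f_j(0)`. So for the ideals with
integral generators which vanish at the origin the conjecture is equivalent to its case of ideals
generated by linear forms and binomials with coefficients `0`, `1`, `-1`.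

Method. Horner's scheme of the generators `f_j` along a forest shows that the ideal `(f, z_1, …, z_κ)`
becomes the ideal of a program by the automorphism `z_m ↦ z_m - z_(o m) x_(v m)`. Counting jets in the
Grothendieck ring gives `Z_(I + (z))(s) = (κ + s Z_I(s + κ)) / (s + κ)`, without resolution of
singularities. For the functional equations: `b` satisfies a functional equation of `f` if and only
if `(s + 1) b(s)` satisfies one of the polynomial `∑ y_j f_j` (the exact form of Mustata's theorem; one
direction is new here), and the addition of `∑ w_m z_m` shifts `b` by `κ`.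
-/

set_option autoImplicit false

namespace Pool.Agent.Results.MP_ee8c61_ag.BinomialReduction

open MvPolynomial Pool.Agent.Q223.ID
open Pool.Agent.Q223.MM (Forest coeffs)
open Pool.Agent.W428.MOT (MK Lu)

/-- **Q1 is equivalent to its case of ideals generated by linear forms and binomials
`z_m - z_(o m) x_(v m)` with log canonical threshold larger than `N`.**

`E` is a homomorphism from the localised Grothendieck ring `𝓜` of varieties to a domain `R` with
`E(𝕃) ≠ 1`, such as the Hodge-Deligne polynomial `E(u, v)`, and `ε` a homomorphism from `R` to `ℂ` with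
`ε(E(𝕃)) = 1`, such as `u, v ↦ 1`, so that `ε ∘ E` is the Euler characteristic. `StrongI E ε f`: for the
topological zeta function `Z` of the ideal generated by the `f j` (`IsTopZeta E ε (zetaId f) Z`:
`Z(s) = ε(E(Z_mot(𝕃 ^ (-s))))` for `s = 1, 2, …`, where `Z_mot(T) = ∑_d [X_d] 𝕃 ^ (-n d) T ^ d` and `X_d` is
the set of the `d`-jets on which the ideal has order `d`), every pole of `Z` is a root of every `b`
which satisfies a functional equation of the `f j` (`IsFunctionalEq f b`, the equation in the
definition of `b_I`), in particular of the Bernstein-Sato polynomial of the ideal.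

`gens o v a c` is the family `a_j + ∑_m c_(j, m) z_m`, `z_m - z_(o m) x_(v m)` (`z_none = 1`).
`Forest o`: `o m = some m'` implies `m' < m`. `t ∈ coeffs S`: `t = 0` or `t ∈ S` or `-t ∈ S`.
`LctGt N f`: some `b ≠ 0` which satisfies a functional equation of the `f j` has only roots with real
part `< -N`; so the log canonical threshold of the ideal is larger than `N`.

First part: for every nonzero proper ideal there is such a family for which the conjecture implies
the conjecture for the ideal. Second part: the equivalence. -/
theorem result {R : Type} [CommRing R] [IsDomain R] (E : MK ℂ →+* R) (ε : R →+* ℂ)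
    (hε : ε (E ((Lu ℂ : (MK ℂ)ˣ) : MK ℂ)) = 1) (hE : E ((Lu ℂ : (MK ℂ)ˣ) : MK ℂ) ≠ 1)
    (S : Set ℂ) (hS : (1 : ℂ) ∈ AddSubgroup.closure S) (N : ℕ) :
    (∀ (n r : ℕ) (f : Fin r → MvPolynomial (Fin n) ℂ), (∃ j, f j ≠ 0) →
      Ideal.span (Set.range f) ≠ ⊤ → (∀ j d, coeff d (f j) ∈ AddSubgroup.closure S) →
      ∃ (κ : ℕ) (o : Fin κ → Option (Fin κ)) (v : Fin κ → Fin n) (c : Fin r → Fin κ → ℂ),
        0 < κ ∧ Forest o ∧ (∀ j m, c j m ∈ coeffs S) ∧
        Ideal.span (Set.range (gens o v (fun j => coeff 0 (f j)) c)) ≠ ⊤ ∧
        LctGt N (gens o v (fun j => coeff 0 (f j)) c) ∧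
        (StrongI E ε (gens o v (fun j => coeff 0 (f j)) c) → StrongI E ε f)) ∧
    ((∀ (n r : ℕ) (f : Fin r → MvPolynomial (Fin n) ℂ), (∃ j, f j ≠ 0) →
        Ideal.span (Set.range f) ≠ ⊤ → (∀ j d, coeff d (f j) ∈ AddSubgroup.closure S) →
        StrongI E ε f) ↔
      ∀ (n r κ : ℕ) (o : Fin κ → Option (Fin κ)) (v : Fin κ → Fin n) (a : Fin r → ℂ)
        (c : Fin r → Fin κ → ℂ), 0 < κ → Forest o → (∀ j, a j ∈ AddSubgroup.closure S) →
        (∀ j m, c j m ∈ coeffs S) → Ideal.span (Set.range (gens o v a c)) ≠ ⊤ →
        LctGt N (gens o v a c) → StrongI E ε (gens o v a c)) := by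
  refine ⟨fun n r f hf hp hfS => ?_, ?_, ?_⟩
  · obtain ⟨κ, o, v, c, h1, h2, h3, h4, h5, h6⟩ := reduceI S N n r f hf hp hfS
    exact ⟨κ, o, v, c, h1, h2, h3, h4, h5, (h6 R E ε hε hE).1⟩
  · intro h n r κ o v a c hκ _ ha hc hp _
    exact (gensF_congr o v a c).1 (h _ _ (gensF o v a c) (gensF_ne o v a c hκ)
      (gensF_proper o v a c hp) fun j d => gensF_coeff hS o v a c ha hc j d)
  · intro h n r f hf hp hfS
    obtain ⟨κ, o, v, c, h1, h2, h3, h4, h5, h6⟩ := reduceI S N n r f hf hp hfS
    exact (h6 R E ε hε hE).1 (h n r κ o v _ c h1 h2 (fun j => hfS j 0) h3 h4 h5)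

end Pool.Agent.Results.MP_ee8c61_ag.BinomialReduction
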